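import Mathlib

set_option autoImplicit false

open Topology

namespace Pool.Agent.Results.MP_6ee6b4_an.NotDense

/-- `y` is hypercyclic for `T`: its orbit is dense. -/
def IsHypercyclic {X : Type*} [TopologicalSpace X] (T : X → X) (y : X) : Prop :=
  Dense (Set.range fun n : ℕ => T^[n] y)

/-- The set `G(T)` of generators of hypercyclic algebras: the nonzero `x` such that every nonzero
element of the (non-unital) subalgebra generated by `x` is hypercyclic for `T`. -/
def generators (𝕜 : Type*) {X : Type*} [RCLike 𝕜] [NonUnitalRing X] [Module 𝕜 X]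
    [IsScalarTower 𝕜 X X] [SMulCommClass 𝕜 X X] [TopologicalSpace X] (T : X →L[𝕜] X) : Set X :=
  {x | x ≠ 0 ∧ ∀ y ∈ NonUnitalAlgebra.adjoin 𝕜 {x}, y ≠ 0 → IsHypercyclic T y}

/-- the space of all sequences -/
def Om (𝕜 : Type) : Type := ℕ → 𝕜

section

variable (𝕜 : Type) [RCLike 𝕜]

instance : AddCommGroup (Om 𝕜) := inferInstanceAs (AddCommGroup (ℕ → 𝕜))
instance : Module 𝕜 (Om 𝕜) := inferInstanceAs (Module 𝕜 (ℕ → 𝕜))
instance : TopologicalSpace (Om 𝕜) := inferInstanceAs (TopologicalSpace (ℕ → 𝕜))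
instance : IsTopologicalAddGroup (Om 𝕜) := inferInstanceAs (IsTopologicalAddGroup (ℕ → 𝕜))
instance : ContinuousSMul 𝕜 (Om 𝕜) := inferInstanceAs (ContinuousSMul 𝕜 (ℕ → 𝕜))
instance : TopologicalSpace.SeparableSpace (Om 𝕜) :=
  inferInstanceAs (TopologicalSpace.SeparableSpace (ℕ → 𝕜))
instance : TopologicalSpace.IsCompletelyMetrizableSpace (Om 𝕜) :=
  inferInstanceAs (TopologicalSpace.IsCompletelyMetrizableSpace (ℕ → 𝕜))

/-- the product `x y = x_0 y_0 e_1` -/
instance : Mul (Om 𝕜) := ⟨fun x y n => if n = 1 then x 0 * y 0 else 0⟩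

variable {𝕜}

theorem mul_def (x y : Om 𝕜) (n : ℕ) : (x * y) n = if n = 1 then x 0 * y 0 else 0 := rfl

omit [RCLike 𝕜] in
theorem ext' {x y : Om 𝕜} (h : ∀ n, x n = y n) : x = y := funext h

theorem add_def (x y : Om 𝕜) (n : ℕ) : (x + y) n = x n + y n := rfl
theorem zero_def (n : ℕ) : (0 : Om 𝕜) n = 0 := rfl
theorem smul_def (c : 𝕜) (x : Om 𝕜) (n : ℕ) : (c • x) n = c * x n := rfl

variable (𝕜)

instance : NonUnitalRing (Om 𝕜) :=
  { (inferInstance : AddCommGroup (Om 𝕜)), (inferInstance : Mul (Om 𝕜)) with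
    left_distrib := fun a b c => ext' fun n => by
      simp only [mul_def, add_def]; split_ifs <;> ring
    right_distrib := fun a b c => ext' fun n => by
      simp only [mul_def, add_def]; split_ifs <;> ring
    zero_mul := fun a => ext' fun n => by
      simp [mul_def, zero_def]
    mul_zero := fun a => ext' fun n => by
      simp [mul_def, zero_def]
    mul_assoc := fun a b c => ext' fun n => by
      simp [mul_def] }

instance : IsScalarTower 𝕜 (Om 𝕜) (Om 𝕜) := ⟨fun c x y => ext' fun n => by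
  show ((c • x) * y) n = (c • (x * y)) n
  rw [smul_def, mul_def, mul_def, smul_def]
  split_ifs <;> ring⟩

instance : SMulCommClass 𝕜 (Om 𝕜) (Om 𝕜) := ⟨fun c x y => ext' fun n => by
  show (c • (x * y)) n = (x * (c • y)) n
  rw [smul_def, mul_def, mul_def, smul_def]
  split_ifs <;> ring⟩

theorem cont_eval (n : ℕ) : Continuous fun x : Om 𝕜 => x n := continuous_apply n

instance : IsTopologicalRing (Om 𝕜) :=
  { (inferInstance : IsTopologicalAddGroup (Om 𝕜)) with
    continuous_mul := by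
      refine continuous_pi fun n => ?_
      by_cases hn : n = 1
      · have : (fun p : Om 𝕜 × Om 𝕜 => (p.1 * p.2) n) = fun p => p.1 0 * p.2 0 := by
          funext p
          rw [mul_def, if_pos hn]
        rw [this]
        exact ((cont_eval 𝕜 0).comp continuous_fst).mul ((cont_eval 𝕜 0).comp continuous_snd)
      · have : (fun p : Om 𝕜 × Om 𝕜 => (p.1 * p.2) n) = fun p => 0 := by
          funext p
          rw [mul_def, if_neg hn]
        rw [this]
        exact continuous_const }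

/-- the backward shift -/
def shift : Om 𝕜 →L[𝕜] Om 𝕜 :=
  { toFun := fun x n => x (n + 1)
    map_add' := fun _ _ => rfl
    map_smul' := fun _ _ => rfl
    cont := continuous_pi fun n => cont_eval 𝕜 (n + 1) }

variable {𝕜}

theorem shift_iter (k : ℕ) (x : Om 𝕜) (n : ℕ) : ((shift 𝕜)^[k] x) n = x (n + k) := by
  induction k generalizing x n with
  | zero => rfl
  | succ k ih =>
    rw [Function.iterate_succ_apply, ih]
    show x (n + k + 1) = _
    rfl

variable (𝕜)

/-- a hypercyclic vector with vanishing zeroth coordinate -/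
noncomputable def hv : Om 𝕜 := fun n =>
  if n = 0 then 0 else
    TopologicalSpace.denseSeq (Om 𝕜) (Nat.unpair (Nat.log 2 n)).1 (n - 2 ^ (Nat.log 2 n))

theorem hv_block (m j i : ℕ) (hi : i ≤ j) :
    hv 𝕜 (i + 2 ^ (Nat.pair m j)) = TopologicalSpace.denseSeq (Om 𝕜) m i := by
  have h1 : j ≤ Nat.pair m j := Nat.right_le_pair m j
  have h2 : i < 2 ^ (Nat.pair m j) :=
    lt_of_le_of_lt (hi.trans h1) Nat.lt_two_pow_self
  have h3 : Nat.log 2 (i + 2 ^ (Nat.pair m j)) = Nat.pair m j := by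
    rw [Nat.log_eq_iff (Or.inr ⟨by norm_num, by positivity⟩)]
    constructor
    · omega
    · rw [pow_succ]; omega
  have h4 : i + 2 ^ (Nat.pair m j) ≠ 0 := by positivity
  unfold hv
  rw [if_neg h4, h3, Nat.unpair_pair, Nat.add_sub_cancel]

theorem hv_hyper (c : 𝕜) (hc : c ≠ 0) : IsHypercyclic (shift 𝕜) (c • hv 𝕜) := by
  unfold IsHypercyclic
  rw [dense_iff_inter_open]
  intro U hU hne
  -- scale back
  have hU' : IsOpen ((fun x : Om 𝕜 => c • x) ⁻¹' U) := hU.preimage (continuous_const_smul c)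
  have hne' : ((fun x : Om 𝕜 => c • x) ⁻¹' U).Nonempty := by
    obtain ⟨u, hu⟩ := hne
    refine ⟨c⁻¹ • u, ?_⟩
    show c • c⁻¹ • u ∈ U
    rwa [smul_inv_smul₀ hc]
  obtain ⟨f, hf, m, rfl⟩ := (TopologicalSpace.denseRange_denseSeq (Om 𝕜)).inter_open_nonempty _ hU' hne'
  obtain ⟨I, u, hu, hsub⟩ := isOpen_pi_iff.1 hU' _ hf
  have hmem : (shift 𝕜)^[2 ^ (Nat.pair m (I.sup id))] (hv 𝕜) ∈
      (fun x : Om 𝕜 => c • x) ⁻¹' U := by
    apply hsub
    intro i hi
    have : i ≤ I.sup id := Finset.le_sup (f := id) hi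
    show ((shift 𝕜)^[2 ^ (Nat.pair m (I.sup id))] (hv 𝕜)) i ∈ u i
    rw [shift_iter, hv_block 𝕜 m _ i this]
    exact (hu i hi).2
  refine ⟨_, hmem, 2 ^ (Nat.pair m (I.sup id)), ?_⟩
  funext i
  show ((shift 𝕜)^[2 ^ (Nat.pair m (I.sup id))] (c • hv 𝕜)) i =
    c * ((shift 𝕜)^[2 ^ (Nat.pair m (I.sup id))] (hv 𝕜)) i
  rw [shift_iter, shift_iter]
  rfl

end

/-- For `𝕜 = ℝ` or `ℂ` there are an `F`-algebra `X` over `𝕜` and a continuous linear `T : X → X`
such that the set `G(T)` of generators of hypercyclic algebras is nonempty but neither dense nor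
residual in `X`. -/
theorem result (𝕜 : Type) [RCLike 𝕜] : ∃ (X : Type) (_ : NonUnitalRing X) (_ : Module 𝕜 X)
    (_ : IsScalarTower 𝕜 X X) (_ : SMulCommClass 𝕜 X X) (_ : TopologicalSpace X)
    (_ : IsTopologicalRing X) (_ : ContinuousSMul 𝕜 X)
    (_ : TopologicalSpace.IsCompletelyMetrizableSpace X) (T : X →L[𝕜] X),
    (generators 𝕜 T).Nonempty ∧ ¬ Dense (generators 𝕜 T) ∧ generators 𝕜 T ∉ residual X := by
  refine ⟨Om 𝕜, inferInstance, inferInstance, inferInstance, inferInstance, inferInstance,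
    inferInstance, inferInstance, inferInstance, shift 𝕜, ?_⟩
  have hsub : generators 𝕜 (shift 𝕜) ⊆ {x : Om 𝕜 | x 0 = 0} := by
    rintro x ⟨-, hx⟩
    by_contra h0
    have hxx : x * x ∈ NonUnitalAlgebra.adjoin 𝕜 {x} :=
      mul_mem (NonUnitalAlgebra.self_mem_adjoin_singleton 𝕜 x)
        (NonUnitalAlgebra.self_mem_adjoin_singleton 𝕜 x)
    have hne : x * x ≠ 0 := by
      intro h
      have := congrFun h 1
      rw [mul_def, if_pos rfl] at this
      exact h0 (mul_self_eq_zero.1 this)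
    have hd := hx _ hxx hne
    have hcl : IsClosed {u : Om 𝕜 | u 2 = 0} := isClosed_eq (cont_eval 𝕜 2) continuous_const
    have hall : closure (Set.range fun n : ℕ => (shift 𝕜)^[n] (x * x)) ⊆ {u : Om 𝕜 | u 2 = 0} := by
      refine closure_minimal ?_ hcl
      rintro _ ⟨n, rfl⟩
      show ((shift 𝕜)^[n] (x * x)) 2 = 0
      rw [shift_iter, mul_def, if_neg (by omega)]
    have h1 := hall (hd (fun _ => (1 : 𝕜)))
    exact one_ne_zero (α := 𝕜) h1
  have hnd : ¬ Dense (generators 𝕜 (shift 𝕜)) := by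
    intro hd
    have hcl : IsClosed {u : Om 𝕜 | u 0 = 0} := isClosed_eq (cont_eval 𝕜 0) continuous_const
    have h1 := (closure_minimal hsub hcl) (hd (fun _ => (1 : 𝕜)))
    exact one_ne_zero (α := 𝕜) h1
  refine ⟨⟨hv 𝕜, ?_, ?_⟩, hnd, fun h => hnd (dense_of_mem_residual h)⟩
  · intro h
    have h1 := hv_hyper 𝕜 1 one_ne_zero
    rw [one_smul, h] at h1
    have hcl : IsClosed {u : Om 𝕜 | u 0 = 0} := isClosed_eq (cont_eval 𝕜 0) continuous_const
    have hall : closure (Set.range fun n : ℕ => (shift 𝕜)^[n] (0 : Om 𝕜)) ⊆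
        {u : Om 𝕜 | u 0 = 0} := by
      refine closure_minimal ?_ hcl
      rintro _ ⟨n, rfl⟩
      show ((shift 𝕜)^[n] 0) 0 = 0
      rw [shift_iter]
      rfl
    have h2 := hall (h1 (fun _ => (1 : 𝕜)))
    exact one_ne_zero (α := 𝕜) h2
  · intro y hy hy0
    have hsq : hv 𝕜 * hv 𝕜 = 0 := by
      funext n
      rw [mul_def]
      have : hv 𝕜 0 = 0 := by unfold hv; rw [if_pos rfl]
      rw [this]
      simp [zero_def]
    have hspan : ∃ c : 𝕜, y = c • hv 𝕜 := by
      clear hy0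
      induction hy using NonUnitalAlgebra.adjoin_induction with
      | mem x hx => exact ⟨1, by rw [one_smul]; exact hx⟩
      | add x y _ _ hx hy =>
        obtain ⟨a, rfl⟩ := hx
        obtain ⟨b, rfl⟩ := hy
        exact ⟨a + b, by rw [add_smul]⟩
      | zero => exact ⟨0, by rw [zero_smul]⟩
      | mul x y _ _ hx hy =>
        obtain ⟨a, rfl⟩ := hx
        obtain ⟨b, rfl⟩ := hy
        exact ⟨0, by rw [smul_mul_smul_comm, hsq, smul_zero, zero_smul]⟩
      | smul r x _ hx =>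
        obtain ⟨a, rfl⟩ := hx
        exact ⟨r * a, by rw [mul_smul]⟩
    obtain ⟨c, rfl⟩ := hspan
    refine hv_hyper 𝕜 c fun hc => hy0 ?_
    rw [hc, zero_smul]

end Pool.Agent.Results.MP_6ee6b4_an.NotDense
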